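import Pool.Agent.H2.EA.Stm

set_option autoImplicit false

open Finset Module

namespace H57.EA
open H2.EA

variable {p : ℕ} [Fact p.Prime]

section gen
variable {A : Type} [AddCommGroup A] [Module (ZMod p) A] {d : ℕ}

theorem eval_genP (b : Basis (Fin d) (ZMod p) A) (v : A →ₗ[ZMod p] ZMod p) (a : A) :
    MvPolynomial.eval (fun l => v (b l)) (genP b a) = v a := by
  have h : (MvPolynomial.aeval (R := ZMod p) (fun l => v (b l))).toLinearMap ∘ₗ genP b = v := by
    apply b.ext
    intro i
    simp [genP]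
  have h2 := congrArg (fun f => f a) h
  simpa [MvPolynomial.aeval_eq_eval] using h2

theorem eval_genP' (b : Basis (Fin d) (ZMod p) A) (x : Fin d → ZMod p) (a : A) :
    MvPolynomial.eval x (genP b a) = b.constr (ZMod p) x a := by
  have h := eval_genP b (b.constr (ZMod p) x) a
  rw [← h]
  congr 2
  ext l
  simp

theorem genP_hom (b : Basis (Fin d) (ZMod p) A) (a : A) : (genP b a).IsHomogeneous 1 := by
  unfold genP
  rw [Basis.constr_apply_fintype]
  refine MvPolynomial.IsHomogeneous.sum _ _ _ fun i _ => ?_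
  rw [MvPolynomial.smul_eq_C_mul]
  simpa using (MvPolynomial.isHomogeneous_C (Fin d) (b.equivFun a i)).mul
    (MvPolynomial.isHomogeneous_X (ZMod p) i)

theorem det_hom {J : Type} [Fintype J] [DecidableEq J]
    (S : Matrix J J (MvPolynomial (Fin d) (ZMod p))) (h : ∀ i j, (S i j).IsHomogeneous 1) :
    S.det.IsHomogeneous (Fintype.card J) := by
  rw [Matrix.det_apply]
  refine MvPolynomial.IsHomogeneous.sum _ _ _ fun σ _ => ?_
  have h1 : (∏ i, S (σ i) i).IsHomogeneous (Fintype.card J) := by
    have := MvPolynomial.IsHomogeneous.prod Finset.univ (fun i => S (σ i) i) (fun _ => 1)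
      (fun i _ => h _ _)
    simpa using this
  rcases Int.units_eq_one_or (Equiv.Perm.sign σ) with h2 | h2 <;> rw [h2]
  · simpa using h1
  · simpa using h1.neg

end gen

section lin

theorem exists_minor {F : Type} [Field F] {J : Type} [Fintype J] {e : ℕ} (M : Matrix J (Fin e) F)
    (h : ∀ y : Fin e → F, (∀ i, ∑ j, y j * M i j = 0) → y = 0) :
    ∃ f : Fin e → J, (M.submatrix f id).det ≠ 0 := by
  classical
  obtain ⟨κ, a, ha, hs, hl⟩ := exists_linearIndependent' F (fun i => M i)
  have hcol : LinearIndependent F M.transpose := by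
    rw [Fintype.linearIndependent_iff]
    intro g hg j
    have := h g (fun i => by
      have := congrFun hg i
      simpa using this)
    rw [this]; rfl
  have hrank : M.rank = e := by
    have : M.transpose.rank = Fintype.card (Fin e) := LinearIndependent.rank_matrix hcol
    rw [Matrix.rank_transpose] at this
    simpa using this
  have hfin : Finite κ := Finite.of_injective a ha
  have : Fintype κ := Fintype.ofFinite κ
  have hc : Fintype.card κ = e := by
    have h1 := finrank_span_eq_card hl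
    rw [hs] at h1
    rw [← h1]
    have h2 := Matrix.rank_eq_finrank_span_row M
    rw [hrank] at h2
    exact h2.symm
  let eq : Fin e ≃ κ := (Fintype.equivFinOfCardEq hc).symm
  refine ⟨a ∘ eq, ?_⟩
  have h3 : LinearIndependent F (M.submatrix (a ∘ eq) id).row := by
    have := hl.comp eq eq.injective
    exact this
  have h4 := Matrix.linearIndependent_rows_iff_isUnit.mp h3
  rw [Matrix.isUnit_iff_isUnit_det] at h4
  exact h4.ne_zero

end lin

section data
variable {G A : Type} [Group G] [AddCommGroup A] [Module (ZMod p) A] (D : Dat p G A)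

theorem lg_ι (x : A) : D.lg (D.ι x) = 0 := by
  rw [D.lg_eq, Dat.N, D.act_ι, sub_self, zero_mul]

variable {E : Type} [Field E] [Algebra (ZMod p) E]

theorem colInd_iff (hZF : S_ZF) (hHOM : S_HOM) {K : Subgroup G} (hA : ∀ x, D.ι x ∈ K) {n : ℕ}
    (co : Coord D K n) (v : A →ₗ[ZMod p] E) {a : ℕ} (g : Fin a → G) {m : ℕ} (θ : Fin m → A)
    (hθ : ∀ j, θ j ∈ D.Z K p) (y : Fin m → E) :
    ((∀ i, ∑ j, y j * v (D.lg (g i) (θ j)) = 0) ∧ (∀ k ∈ K, ∑ j, y j * v (D.lg k (θ j)) = 0)) ↔
      (∀ i, ∑ j, y j * v (D.lg (Sum.elim g co.k i) (θ j)) = 0) := by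
  constructor
  · rintro ⟨h1, h2⟩ i
    rcases i with i | i
    · exact h1 i
    · exact h2 _ (co.hk i)
  · intro h
    refine ⟨fun i => h (Sum.inl i), fun k hk => ?_⟩
    have h6 := (hZF p G A D).2.2.2.2.2.1
    have h3 := (hHOM p G A D K n co hA).1 E (fun x => ∑ j, y j * v (D.lg x (θ j)))
      (fun x hx z hz => by
        rw [← Finset.sum_add_distrib]
        refine Finset.sum_congr rfl fun j _ => ?_
        rw [h6 K x hx z hz _ (hθ j), map_add, mul_add])
      (fun x => by simp [lg_ι]) k hk
    rw [h3]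
    refine Finset.sum_eq_zero fun i _ => ?_
    have := h (Sum.inr i)
    simp only [Sum.elim_inr] at this
    rw [this, smul_zero]

theorem colInd_iff' (hZF : S_ZF) (hHOM : S_HOM) {K : Subgroup G} (hA : ∀ x, D.ι x ∈ K) {n : ℕ}
    (co : Coord D K n) (v : A →ₗ[ZMod p] E) {a : ℕ} (g : Fin a → G) {m : ℕ} (θ : Fin m → A)
    (hθ : ∀ j, θ j ∈ D.Z K p) :
    colInd D v g K θ ↔ ∀ y : Fin m → E,
      (∀ i, ∑ j, y j * v (D.lg (Sum.elim g co.k i) (θ j)) = 0) → y = 0 := by
  unfold colInd
  constructor
  · intro h y hy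
    obtain ⟨h1, h2⟩ := (colInd_iff D hZF hHOM hA co v g θ hθ y).mpr hy
    exact h y h1 h2
  · intro h y h1 h2
    exact h y ((colInd_iff D hZF hHOM hA co v g θ hθ y).mp ⟨h1, h2⟩)

/-- a sum over a longer family, with coefficients supported on a prefix -/
theorem sum_extend {m r : ℕ} (h : m ≤ r) (y : Fin m → E) (F : Fin r → E) :
    ∑ j : Fin r, (if hj : (j : ℕ) < m then y ⟨j, hj⟩ else 0) * F j
      = ∑ j : Fin m, y j * F (Fin.castLE h j) := by
  classical
  obtain ⟨t, rfl⟩ := Nat.exists_eq_add_of_le h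
  rw [Fin.sum_univ_add]
  have h2 : ∑ i : Fin t, (if hj : ((Fin.natAdd m i : Fin (m + t)) : ℕ) < m then
      y ⟨(Fin.natAdd m i : Fin (m + t)), hj⟩ else 0) * F (Fin.natAdd m i) = 0 := by
    refine Finset.sum_eq_zero fun i _ => ?_
    rw [dif_neg (by simp), zero_mul]
  rw [h2, add_zero]
  refine Finset.sum_congr rfl fun j _ => ?_
  rw [dif_pos (by simp)]
  rfl

theorem colInd_castLE {v : A →ₗ[ZMod p] E} {a : ℕ} {g : Fin a → G} {K : Subgroup G} {m r : ℕ}
    (h : m ≤ r) {φ : Fin m → A} {θ : Fin r → A} (hθ : ∀ j, θ (Fin.castLE h j) = φ j)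
    (hc : colInd D v g K θ) : colInd D v g K φ := by
  intro y h1 h2
  have h3 := hc (fun j => if hj : (j : ℕ) < m then y ⟨j, hj⟩ else 0)
    (fun i => by
      have := sum_extend h y (fun j => v (D.lg (g i) (θ j)))
      rw [this]
      simpa [hθ] using h1 i)
    (fun k hk => by
      have := sum_extend h y (fun j => v (D.lg k (θ j)))
      rw [this]
      simpa [hθ] using h2 k hk)
  ext j
  have h4 := congrFun h3 (Fin.castLE h j)
  simpa using h4

/-- a nonsingular submatrix makes the columns independent -/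
theorem ind_of_det {J : Type} {e : ℕ} (M : Matrix J (Fin e) E) (f : Fin e → J)
    (h : (M.submatrix f id).det ≠ 0) (y : Fin e → E) (hy : ∀ i, ∑ j, y j * M i j = 0) : y = 0 := by
  refine Matrix.eq_zero_of_mulVec_eq_zero h ?_
  ext i
  have := hy (f i)
  simp only [Matrix.mulVec, dotProduct, Matrix.submatrix_apply, id_eq, Pi.zero_apply]
  rw [← this]
  exact Finset.sum_congr rfl fun j _ => mul_comm _ _

end data

end H57.EA
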