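import Pool.Agent.H57.EA.Com

set_option autoImplicit false

open Finset Module

namespace H57.EA
open H2.EA

theorem rank_stack {F : Type} [Field F] {P1 P2 C : Type} [Fintype P1] [Fintype P2] [Fintype C]
    (M : Matrix (P1 ⊕ P2) C F) :
    M.rank ≤ Fintype.card P1 + (M.submatrix Sum.inr id).rank := by
  rw [Matrix.rank_eq_finrank_span_row, Matrix.rank_eq_finrank_span_row]
  have h1 : Set.range M.row = Set.range (fun i => M (Sum.inl i)) ∪
      Set.range (M.submatrix Sum.inr id).row := by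
    ext r
    simp only [Set.mem_range, Set.mem_union]
    constructor
    · rintro ⟨i | i, rfl⟩
      · exact Or.inl ⟨i, rfl⟩
      · exact Or.inr ⟨i, rfl⟩
    · rintro (⟨i, rfl⟩ | ⟨i, rfl⟩)
      · exact ⟨Sum.inl i, rfl⟩
      · exact ⟨Sum.inr i, rfl⟩
  rw [h1, Submodule.span_union]
  refine (Submodule.finrank_add_le_finrank_add_finrank _ _).trans ?_
  gcongr
  exact finrank_range_le_card _

theorem card_le_bsq {p : ℕ} [Fact p.Prime] {G A : Type} [Group G] [Finite G] [AddCommGroup A]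
    [Module (ZMod p) A] (D : Dat p G A) (v : A →ₗ[ZMod p] ZMod p) :
    (D.stab v).index ^ 2 ≤ D.bsq v := by
  unfold Dat.bsq Dat.bsqK
  have h1 : (D.stabK ⊤ v).relIndex ⊤ = (D.stab v).index := by
    rw [Subgroup.relIndex_top_right]
    unfold Dat.stabK
    rw [inf_top_eq]
  rw [h1]
  exact Nat.le_mul_of_pos_right _ (Nat.pos_of_ne_zero Subgroup.index_ne_zero_of_finite)

theorem t_FL1 (hZF : S_ZF) (hHOM : S_HOM) (hCOORD : S_COORD) (hEXT : S_EXT) (hHZ : S_HZ)
    (hIDX4 : S_IDX4) : S_FL1 := by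
  intro p _ G A _ _ _ _ D hG d b K gd e he0 hep hm hR z hz
  classical
  unfold RankLe at hR
  push Not at hR
  obtain ⟨r, ψ, hψ, hci, hr⟩ := hR
  have hr' : e ≤ r := by omega
  obtain ⟨θ, hθφ, hθr, hθ⟩ := hEXT p G A D (Fr p d) (genF b) gd.a gd.g K gd.m r e gd.φ ψ
    gd.hgen hci hm hr'
  have hθZ : ∀ j, θ j ∈ D.Z K p := by
    intro j
    rcases hθr j with ⟨i, hi⟩ | ⟨i, hi⟩
    · rw [← hi]; exact gd.hφ i
    · rw [← hi]; exact hψ i
  obtain ⟨n, ⟨co⟩⟩ := hCOORD p G A D K gd.hA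
  let ρ : Fin gd.a ⊕ Fin n → G := Sum.elim gd.g co.k
  let M : Matrix (Fin gd.a ⊕ Fin n) (Fin e) (MvPolynomial (Fin d) (ZMod p)) :=
    Matrix.of fun i j => genP b (D.lg (ρ i) (θ j))
  obtain ⟨f, hf⟩ := exists_minor (M.map (algebraMap _ (Fr p d)))
    ((colInd_iff' D hZF hHOM gd.hA co (genF b) gd.g θ hθZ).mp hθ)
  have hQ0 : (M.submatrix f id).det ≠ 0 := by
    intro h0
    apply hf
    have h1 := RingHom.map_det (algebraMap (MvPolynomial (Fin d) (ZMod p)) (Fr p d))
      (M.submatrix f id)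
    rw [h0, map_zero] at h1
    exact h1.symm
  have hQh : (M.submatrix f id).det.IsHomogeneous e := by
    have := det_hom (M.submatrix f id) (fun i j => genP_hom b _)
    simpa using this
  have hz' : (fun l => b.equivFun z l) ≠ 0 := by
    intro h
    apply hz
    exact b.equivFun.map_eq_zero_iff.mp h
  obtain ⟨x, hx1, hx2⟩ := hHZ p d e _ hQh hep hQ0 _ hz'
  let v : A →ₗ[ZMod p] ZMod p := b.constr (ZMod p) x
  have hvz : v z ≠ 0 := by
    simp only [v, Basis.constr_apply_fintype, smul_eq_mul]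
    exact hx1
  -- the matrix at `v`
  let Mv : Matrix (Fin gd.a ⊕ Fin n) (Fin e) (ZMod p) := Matrix.of fun i j => v (D.lg (ρ i) (θ j))
  have hMv : (Mv.submatrix f id).det ≠ 0 := by
    have h1 := RingHom.map_det (MvPolynomial.eval x) (M.submatrix f id)
    have h2 : (MvPolynomial.eval x).mapMatrix (M.submatrix f id) = Mv.submatrix f id := by
      ext i j
      simp [M, Mv, v, eval_genP']
    rw [h2] at h1
    rw [← h1]
    exact hx2
  have hcol : ∀ y : Fin e → ZMod p, (∀ i, ∑ j, y j * Mv i j = 0) → y = 0 :=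
    ind_of_det Mv f hMv
  have hci2 : colInd D v gd.g K θ := (colInd_iff' D hZF hHOM gd.hA co v gd.g θ hθZ).mpr hcol
  have hst : D.stab v ≤ K := gd.hstab v (colInd_castLE D hm hθφ hci2)
  refine ⟨v, hvz, ?_⟩
  have hrk : Mv.rank = e := by
    refine le_antisymm (by simpa using Mv.rank_le_card_width) ?_
    calc e = (Mv.submatrix f id).rank := by
            rw [Matrix.rank_of_det_ne_zero hMv]; simp
      _ ≤ Mv.rank := Matrix.rank_submatrix_le _ _ _
  have h1 : e ≤ gd.a + (Matrix.of (fun (i : Fin n) (j : Fin e) =>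
      v (D.lg (co.k i) (θ j)))).rank := by
    have h2 := rank_stack Mv
    rw [hrk, Fintype.card_fin] at h2
    exact h2
  have h3 := hIDX4 p G A D K gd.hA n co v e θ hθZ
  have h4 : p ^ e ≤ (D.stab v).index := by
    have h5 := Subgroup.relIndex_mul_index hst
    have h6 : (D.stabK K v).relIndex K = (D.stab v).relIndex K := by
      unfold Dat.stabK
      rw [Subgroup.inf_relIndex_right]
    rw [h6] at h3
    rw [← h5, gd.hindex]
    calc p ^ e ≤ p ^ (gd.a + (Matrix.of (fun (i : Fin n) (j : Fin e) =>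
        v (D.lg (co.k i) (θ j)))).rank) := Nat.pow_le_pow_right (Fact.out : p.Prime).pos h1
      _ = p ^ (Matrix.of (fun (i : Fin n) (j : Fin e) =>
        v (D.lg (co.k i) (θ j)))).rank * p ^ gd.a := by rw [pow_add, mul_comm]
      _ ≤ _ := Nat.mul_le_mul_right _ h3
  calc p ^ (2 * e) = (p ^ e) ^ 2 := by rw [mul_comm, pow_mul]
    _ ≤ (D.stab v).index ^ 2 := Nat.pow_le_pow_left h4 2
    _ ≤ _ := card_le_bsq D v

end H57.EA
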