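import Pool.Agent.H57.EA.Com

set_option autoImplicit false

open Finset Module

namespace H57.EA
open H2.EA

section mats
variable {p : ℕ} [Fact p.Prime] {G A : Type} [Group G] [AddCommGroup A] [Module (ZMod p) A]
  (D : Dat p G A)

theorem lq_commute (g h : G) : Commute (D.lq g) (D.lq h) := by
  unfold Dat.lq tq
  refine Commute.sum_left _ _ _ fun i _ => Commute.sum_right _ _ _ fun j _ => ?_
  exact (((D.N_commute g h).pow_pow i j).smul_left _).smul_right _

theorem CC_self {K : Subgroup G} {n : ℕ} (co : Coord D K n) (i : Fin n) : CC D co i i = 0 := by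
  unfold CC
  rw [D.c_self, map_zero]

theorem CC_swap {K : Subgroup G} {n : ℕ} (co : Coord D K n) (i j : Fin n) :
    CC D co j i = - CC D co i j := by
  unfold CC
  rw [D.c_swap (co.k i) (co.k j), map_neg, (lq_commute D (co.k j) (co.k i)).eq]

/-- the big matrix, for any commutative ring of values -/
noncomputable def SS {E : Type} [CommRing E] [Module (ZMod p) E] (v : A →ₗ[ZMod p] E)
    {K : Subgroup G} {n : ℕ} (co : Coord D K n) {a : ℕ} (g : Fin a → G) {r : ℕ} (θ : Fin r → A) :
    Matrix ((Fin a ⊕ Fin n) ⊕ Fin r) ((Fin a ⊕ Fin n) ⊕ Fin r) E :=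
  Matrix.fromBlocks (Matrix.fromBlocks 0 0 0 (Matrix.of fun i j => v (CC D co i j)))
    (Matrix.fromRows (Matrix.of fun i j => v (D.lg (g i) (θ j)))
      (Matrix.of fun i j => v (D.lg (co.k i) (θ j))))
    (-(Matrix.fromRows (Matrix.of fun i j => v (D.lg (g i) (θ j)))
      (Matrix.of fun i j => v (D.lg (co.k i) (θ j)))).transpose) 0

/-- `TT` for any commutative ring of values -/
noncomputable def TR {E : Type} [CommRing E] [Module (ZMod p) E] (v : A →ₗ[ZMod p] E)
    {K : Subgroup G} {n : ℕ} (co : Coord D K n) {r : ℕ} (ψ : Fin r → A) :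
    Matrix (Fin n ⊕ Fin r) (Fin n ⊕ Fin r) E :=
  Matrix.fromBlocks (Matrix.of fun i j => v (CC D co i j))
    (Matrix.of fun i l => v (D.lg (co.k i) (ψ l)))
    (-(Matrix.of fun i l => v (D.lg (co.k i) (ψ l))).transpose) 0

theorem TT_eq {E : Type} [Field E] [Algebra (ZMod p) E] (v : A →ₗ[ZMod p] E)
    {K : Subgroup G} {n : ℕ} (co : Coord D K n) {r : ℕ} (ψ : Fin r → A) :
    TT D v co ψ = TR D v co ψ := rfl

theorem SS_map {E E' : Type} [CommRing E] [Module (ZMod p) E] [CommRing E'] [Module (ZMod p) E']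
    (v : A →ₗ[ZMod p] E) (v' : A →ₗ[ZMod p] E') (F : E →+* E') (h : ∀ a, F (v a) = v' a)
    {K : Subgroup G} {n : ℕ} (co : Coord D K n) {a : ℕ} (g : Fin a → G) {r : ℕ} (θ : Fin r → A) :
    (SS D v co g θ).map F = SS D v' co g θ := by
  ext i j
  rcases i with (i | i) | i <;> rcases j with (j | j) | j <;> simp [SS, h]

theorem TR_map {E E' : Type} [CommRing E] [Module (ZMod p) E] [CommRing E'] [Module (ZMod p) E']
    (v : A →ₗ[ZMod p] E) (v' : A →ₗ[ZMod p] E') (F : E →+* E') (h : ∀ a, F (v a) = v' a)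
    {K : Subgroup G} {n : ℕ} (co : Coord D K n) {r : ℕ} (ψ : Fin r → A) :
    (TR D v co ψ).map F = TR D v' co ψ := by
  ext i j
  rcases i with i | i <;> rcases j with j | j <;> simp [TR, h]

theorem SS_diag {E : Type} [CommRing E] [Module (ZMod p) E] (v : A →ₗ[ZMod p] E)
    {K : Subgroup G} {n : ℕ} (co : Coord D K n) {a : ℕ} (g : Fin a → G) {r : ℕ} (θ : Fin r → A)
    (i) : SS D v co g θ i i = 0 := by
  rcases i with (i | i) | i <;> simp [SS, CC_self]

theorem SS_skew {E : Type} [CommRing E] [Module (ZMod p) E] (v : A →ₗ[ZMod p] E)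
    {K : Subgroup G} {n : ℕ} (co : Coord D K n) {a : ℕ} (g : Fin a → G) {r : ℕ} (θ : Fin r → A)
    (i j) : SS D v co g θ j i = - SS D v co g θ i j := by
  rcases i with (i | i) | i <;> rcases j with (j | j) | j <;>
    first
    | simp [SS, CC_swap D co i j]
    | simp [SS]

theorem SS_rr {E : Type} [CommRing E] [Module (ZMod p) E] (v : A →ₗ[ZMod p] E)
    {K : Subgroup G} {n : ℕ} (co : Coord D K n) {a : ℕ} (g : Fin a → G) {r : ℕ} (θ : Fin r → A)
    (i j) : SS D v co g θ (Sum.inr i) (Sum.inr j) = 0 := by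
  simp [SS]

theorem SS_lr {E : Type} [CommRing E] [Module (ZMod p) E] (v : A →ₗ[ZMod p] E)
    {K : Subgroup G} {n : ℕ} (co : Coord D K n) {a : ℕ} (g : Fin a → G) {r : ℕ} (θ : Fin r → A)
    (i j) : SS D v co g θ (Sum.inl i) (Sum.inr j) = v (D.lg (Sum.elim g co.k i) (θ j)) := by
  rcases i with i | i <;> simp [SS]

theorem SS_hom {d : ℕ} (b : Basis (Fin d) (ZMod p) A)
    {K : Subgroup G} {n : ℕ} (co : Coord D K n) {a : ℕ} (g : Fin a → G) {r : ℕ} (θ : Fin r → A)
    (i j) : (SS D (genP b) co g θ i j).IsHomogeneous 1 := by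
  rcases i with (i | i) | i <;> rcases j with (j | j) | j <;> simp only [SS,
    Matrix.fromBlocks_apply₁₁, Matrix.fromBlocks_apply₁₂, Matrix.fromBlocks_apply₂₁,
    Matrix.fromBlocks_apply₂₂, Matrix.fromRows_apply_inl, Matrix.fromRows_apply_inr,
    Matrix.of_apply, Matrix.zero_apply, Matrix.neg_apply, Matrix.transpose_apply] <;>
  first
  | exact MvPolynomial.isHomogeneous_zero _ _ _
  | exact genP_hom b _
  | exact (genP_hom b _).neg

/-- the comparison of ranks -/
theorem rank_SS (hLA3 : S_LA3) {E : Type} [Field E] [Algebra (ZMod p) E] (v : A →ₗ[ZMod p] E)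
    {K : Subgroup G} {n : ℕ} (co : Coord D K n) {a : ℕ} (g : Fin a → G) {m r r' : ℕ}
    (φ : Fin m → A) (θ : Fin r → A) (ψ : Fin r' → A) (h : m ≤ r)
    (hθ : ∀ j, θ (Fin.castLE h j) = φ j) (hrow : rowMod D v g K φ)
    (hker : ∀ s2 : Fin n → E, (∀ j, ∑ i, s2 i * v (D.lg (co.k i) (θ j)) = 0) ↔
      (∀ j, ∑ i, s2 i * v (D.lg (co.k i) (ψ j)) = 0)) :
    (SS D v co g θ).rank = 2 * a + (TT D v co ψ).rank := by
  have h1 := hLA3 E (Fin a) (Fin n) (Fin r) (Fin r') (Matrix.of fun i j => v (CC D co i j))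
    (Matrix.of fun i j => v (D.lg (g i) (θ j))) (Matrix.of fun i j => v (D.lg (co.k i) (θ j)))
    (Matrix.of fun i j => v (D.lg (co.k i) (ψ j))) ?_ hker
  · rw [Fintype.card_fin] at h1
    exact h1
  · intro s1 s2 hs
    apply hrow s1
    have h2 : ∑ i, s1 i • row D v φ (g i) = - ∑ i, s2 i • row D v φ (co.k i) := by
      ext j
      have h3 := hs (Fin.castLE h j)
      simp only [Matrix.of_apply, hθ] at h3
      simp only [row, Finset.sum_apply, Pi.smul_apply, smul_eq_mul, Pi.neg_apply]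
      exact eq_neg_of_add_eq_zero_left h3
    rw [h2]
    refine Submodule.neg_mem _ (Submodule.sum_mem _ fun i _ => Submodule.smul_mem _ _
      (Submodule.subset_span ⟨co.k i, co.hk i, rfl⟩))

theorem rank_TT_le (v : A →ₗ[ZMod p] ZMod p) {d : ℕ} (b : Basis (Fin d) (ZMod p) A)
    {K : Subgroup G} {n : ℕ} (co : Coord D K n) {r : ℕ} (θ : Fin r → A) :
    (TT D v co θ).rank ≤ (TT D v co (fun l => b l)).rank := by
  classical
  let R : Matrix (Fin d) (Fin r) (ZMod p) := Matrix.of fun l j => b.repr (θ j) l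
  let N : Matrix (Fin n) (Fin d) (ZMod p) := Matrix.of fun i l => v (D.lg (co.k i) (b l))
  let D0 : Matrix (Fin n) (Fin n) (ZMod p) := Matrix.of fun i j => v (CC D co i j)
  have hN : (Matrix.of fun i j => v (D.lg (co.k i) (θ j)) : Matrix (Fin n) (Fin r) (ZMod p))
      = N * R := by
    ext i j
    simp only [Matrix.of_apply, Matrix.mul_apply, N, R]
    conv_lhs => rw [← b.sum_repr (θ j)]
    rw [map_sum, map_sum]
    refine Finset.sum_congr rfl fun l _ => ?_
    rw [map_smul, map_smul, smul_eq_mul, mul_comm]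
  have h1 : TT D v co θ = (Matrix.fromBlocks (1 : Matrix (Fin n) (Fin n) (ZMod p)) 0 0
      R.transpose * TT D v co (fun l => b l)) *
        Matrix.fromBlocks (1 : Matrix (Fin n) (Fin n) (ZMod p)) 0 0 R := by
    rw [TT_eq, TT_eq]
    unfold TR
    rw [hN]
    change Matrix.fromBlocks D0 (N * R) (-(N * R).transpose) 0
      = (Matrix.fromBlocks (1 : Matrix (Fin n) (Fin n) (ZMod p)) 0 0 R.transpose *
          Matrix.fromBlocks D0 N (-N.transpose) 0) *
        Matrix.fromBlocks (1 : Matrix (Fin n) (Fin n) (ZMod p)) 0 0 R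
    simp [Matrix.fromBlocks_multiply]
  rw [h1]
  exact (Matrix.rank_mul_le_left _ _).trans (Matrix.rank_mul_le_right _ _)

end mats

theorem t_FL2 (hZF : S_ZF) (hHOM : S_HOM) (hCOORD : S_COORD) (hHZ : S_HZ) (hSQ : S_SQ)
    (hALT : S_ALT) (hSC : S_SC) (hLA3 : S_LA3) (hIDX1 : S_IDX1) (hIDX2 : S_IDX2) : S_FL2 := by
  intro p _ G A _ _ _ _ D hG d b K gd e he0 hep hR hZ v0 hv0 z hz
  classical
  have hp1 : 1 < p := (Fact.out : p.Prime).one_lt
  have hZp : ∀ a : A, a ∈ D.Z K p := by
    intro a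
    have h1 := (hZF p G A D).1 K (p - 1)
    have h2 : p - 1 + 1 = p := by omega
    rw [h2, hZ] at h1
    exact h1 trivial
  obtain ⟨n, ⟨co⟩⟩ := hCOORD p G A D K gd.hA
  -- maximal family
  let Pr : ℕ → Prop := fun t => ∃ (h : gd.m ≤ t) (θ : Fin t → A),
    (∀ j, θ (Fin.castLE h j) = gd.φ j) ∧ colInd D (genF b) gd.g K θ
  have hPb : ∀ t, Pr t → t ≤ e - 1 := fun t ⟨_, θ, _, hθ⟩ => hR t θ (fun j => hZp _) hθ
  have hP0 : Pr gd.m := ⟨le_rfl, gd.φ, fun j => rfl, gd.hgen⟩
  obtain ⟨R, hPR, hmax⟩ : ∃ R, Pr R ∧ ¬ Pr (R + 1) := by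
    by_contra hcon
    push Not at hcon
    have h1 : ∀ k, Pr (gd.m + k) := by
      intro k
      induction k with
      | zero => exact hP0
      | succ k ih => exact hcon _ ih
    have := hPb _ (h1 e)
    omega
  have hRe : R ≤ e - 1 := hPb R hPR
  obtain ⟨hmR, θ, hθφ, hθ⟩ := hPR
  have hRR := (colInd_iff' D hZF hHOM gd.hA co (genF b) gd.g θ (fun j => hZp _)).mp hθ
  have hdep : ∀ a : A, ∃ w : Fin R → Fr p d, ∀ i : Fin gd.a ⊕ Fin n,
      genF b (D.lg (Sum.elim gd.g co.k i) a)
        = ∑ j, w j * genF b (D.lg (Sum.elim gd.g co.k i) (θ j)) := by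
    intro a
    by_contra hno
    apply hmax
    refine ⟨hmR.trans (Nat.le_succ R), Fin.snoc (α := fun _ => A) θ a, ?_, ?_⟩
    · intro j
      have h1 : (Fin.castLE (hmR.trans (Nat.le_succ R)) j : Fin (R + 1))
        = Fin.castSucc (Fin.castLE hmR j) := rfl
      rw [h1, Fin.snoc_castSucc]
      exact hθφ j
    · rw [colInd_iff' D hZF hHOM gd.hA co (genF b) gd.g _ (fun j => hZp _)]
      intro y hy
      simp only [Fin.sum_univ_castSucc, Fin.snoc_castSucc, Fin.snoc_last] at hy
      by_cases hl : y (Fin.last R) = 0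
      · have h2 := hRR (fun j => y (Fin.castSucc j)) (fun i => by
          have := hy i
          rw [hl, zero_mul, add_zero] at this
          exact this)
        ext j
        refine Fin.lastCases ?_ (fun j => ?_) j
        · exact hl
        · exact congrFun h2 j
      · exfalso
        apply hno
        refine ⟨fun j => - (y (Fin.last R))⁻¹ * y (Fin.castSucc j), fun i => ?_⟩
        have h3 := hy i
        have h4 : ∑ j, -(y (Fin.last R))⁻¹ * y (Fin.castSucc j) *
            genF b (D.lg (Sum.elim gd.g co.k i) (θ j))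
            = -(y (Fin.last R))⁻¹ * ∑ j, y (Fin.castSucc j) *
              genF b (D.lg (Sum.elim gd.g co.k i) (θ j)) := by
          rw [Finset.mul_sum]
          exact Finset.sum_congr rfl fun j _ => by ring
        rw [h4, eq_neg_of_add_eq_zero_left h3, neg_mul_neg, ← mul_assoc, inv_mul_cancel₀ hl,
          one_mul]
  -- ranks at the given functional and generically
  have hev : ∀ (v : A →ₗ[ZMod p] ZMod p) (a : A),
      (MvPolynomial.eval (fun l => v (b l))) (genP b a) = v a := fun v a => eval_genP b v a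
  have hr1 : (TT D v0 co (fun l => b l)).rank ≤ (TT D (genF b) co (fun l => b l)).rank := by
    have h1 := hSC p d (Fin n ⊕ Fin d) (Fin n ⊕ Fin d) (TR D (genP b) co (fun l => b l))
      (fun l => v0 (b l))
    rw [TR_map D (genP b) v0 _ (hev v0) co,
      TR_map D (genP b) (genF b) _ (fun a => rfl) co] at h1
    exact h1
  have hr2 : 2 * e ≤ 2 * gd.a + (TT D v0 co (fun l => b l)).rank := by
    have h1 := (hIDX2 p G A D K v0 gd.hA).1
    rw [hIDX1 p G A D hG d b K gd.hA hZ n co v0, gd.hindex, ← pow_mul, ← pow_add] at h1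
    have h2 := (Nat.pow_le_pow_iff_right hp1).mp (hv0.trans h1)
    omega
  have hr3 : (SS D (genF b) co gd.g θ).rank
      = 2 * gd.a + (TT D (genF b) co (fun l => b l)).rank := by
    refine rank_SS D hLA3 (genF b) co gd.g gd.φ θ (fun l => b l) hmR hθφ gd.hrow ?_
    intro s2
    constructor
    · intro hs l
      obtain ⟨w, hw⟩ := hdep (b l)
      have h1 : ∀ i : Fin n, genF b (D.lg (co.k i) (b l))
          = ∑ j, w j * genF b (D.lg (co.k i) (θ j)) := fun i => hw (Sum.inr i)
      calc ∑ i, s2 i * genF b (D.lg (co.k i) (b l))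
          = ∑ i, ∑ j, w j * (s2 i * genF b (D.lg (co.k i) (θ j))) := by
            refine Finset.sum_congr rfl fun i _ => ?_
            rw [h1 i, Finset.mul_sum]
            exact Finset.sum_congr rfl fun j _ => by ring
        _ = ∑ j, w j * ∑ i, s2 i * genF b (D.lg (co.k i) (θ j)) := by
            rw [Finset.sum_comm]
            exact Finset.sum_congr rfl fun j _ => by rw [Finset.mul_sum]
        _ = 0 := Finset.sum_eq_zero fun j _ => by rw [hs j, mul_zero]
    · intro hs j
      have h1 : ∀ i : Fin n, genF b (D.lg (co.k i) (θ j))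
          = ∑ l, b.repr (θ j) l • genF b (D.lg (co.k i) (b l)) := by
        intro i
        conv_lhs => rw [← b.sum_repr (θ j)]
        rw [map_sum, map_sum]
        exact Finset.sum_congr rfl fun l _ => by rw [map_smul, map_smul]
      calc ∑ i, s2 i * genF b (D.lg (co.k i) (θ j))
          = ∑ i, ∑ l, b.repr (θ j) l • (s2 i * genF b (D.lg (co.k i) (b l))) := by
            refine Finset.sum_congr rfl fun i _ => ?_
            rw [h1 i, Finset.mul_sum]
            exact Finset.sum_congr rfl fun l _ => by rw [mul_smul_comm]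
        _ = ∑ l, b.repr (θ j) l • ∑ i, s2 i * genF b (D.lg (co.k i) (b l)) := by
            rw [Finset.sum_comm]
            exact Finset.sum_congr rfl fun l _ => by rw [Finset.smul_sum]
        _ = 0 := Finset.sum_eq_zero fun l _ => by rw [hs l, smul_zero]
  -- the principal minor
  obtain ⟨f, hf, hdet⟩ := hALT (Fr p d) (Fin gd.a ⊕ Fin n) (Fin R) (SS D (genF b) co gd.g θ)
    (SS_diag D _ co gd.g θ) (fun i j => SS_skew D _ co gd.g θ i j)
    (SS_rr D _ co gd.g θ) (by
      intro y hy
      apply hRR y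
      intro i
      have h1 := hy i
      simp only [SS_lr] at h1
      rw [← h1]
      exact Finset.sum_congr rfl fun j _ => mul_comm _ _) e
    (by rw [Fintype.card_fin]; omega) (by rw [hr3]; omega)
  set Sp := (SS D (genP b) co gd.g θ).submatrix (Sum.map f id) (Sum.map f id) with hSp
  have hSp0 : Sp.det ≠ 0 := by
    intro h0
    apply hdet
    have h1 := RingHom.map_det (algebraMap (MvPolynomial (Fin d) (ZMod p)) (Fr p d)) Sp
    rw [h0, map_zero] at h1
    rw [← SS_map D (genP b) (genF b) (algebraMap _ (Fr p d)) (fun a => rfl) co gd.g θ]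
    exact h1.symm
  have hcard : Fintype.card (Fin (2 * e - Fintype.card (Fin R)) ⊕ Fin R) = 2 * e := by
    rw [Fintype.card_sum, Fintype.card_fin, Fintype.card_fin]
    omega
  obtain ⟨Q, hQh, hQ2⟩ := hSQ p d e _ Sp hcard (fun i => SS_diag D _ co gd.g θ _)
    (fun i j => SS_skew D _ co gd.g θ _ _) (fun i j => SS_hom D b co gd.g θ _ _) hSp0
  have hQ0 : Q ≠ 0 := by
    rintro rfl
    apply hSp0
    rw [← hQ2]
    exact zero_pow two_ne_zero
  have hz' : (fun l => b.equivFun z l) ≠ 0 := by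
    intro h
    apply hz
    exact b.equivFun.map_eq_zero_iff.mp h
  obtain ⟨x, hx1, hx2⟩ := hHZ p d e Q hQh hep hQ0 _ hz'
  let v : A →ₗ[ZMod p] ZMod p := b.constr (ZMod p) x
  have hvz : v z ≠ 0 := by
    simp only [v, Basis.constr_apply_fintype, smul_eq_mul]
    exact hx1
  have hdv : ((SS D v co gd.g θ).submatrix (Sum.map f id) (Sum.map f id)).det ≠ 0 := by
    intro h0
    apply hx2
    have h1 := RingHom.map_det (MvPolynomial.eval x) Sp
    rw [← hQ2, map_pow] at h1
    have h2 : (MvPolynomial.eval x).mapMatrix Sp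
        = (SS D v co gd.g θ).submatrix (Sum.map f id) (Sum.map f id) := by
      rw [← SS_map D (genP b) v (MvPolynomial.eval x) (fun a => eval_genP' b x a) co gd.g θ]
      rfl
    rw [h2, h0] at h1
    exact pow_eq_zero_iff two_ne_zero |>.mp h1
  -- columns are independent at `v`
  have hcol : colInd D v gd.g K θ := by
    rw [colInd_iff' D hZF hHOM gd.hA co v gd.g θ (fun j => hZp _)]
    intro y hy
    have h1 : Sum.elim (0 : Fin (2 * e - Fintype.card (Fin R)) → ZMod p) y = 0 := by
      refine Matrix.eq_zero_of_mulVec_eq_zero hdv ?_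
      ext i
      simp only [Matrix.mulVec, dotProduct, Fintype.sum_sum_type, Matrix.submatrix_apply,
        Sum.elim_inl, Sum.elim_inr, Pi.zero_apply, mul_zero, Finset.sum_const_zero, zero_add,
        Sum.map_inr, id_eq]
      rcases i with i | i
      · simp only [Sum.map_inl, SS_lr]
        rw [← hy (f i)]
        exact Finset.sum_congr rfl fun j _ => mul_comm _ _
      · simp only [Sum.map_inr, SS_rr, zero_mul, Finset.sum_const_zero]
    ext j
    have h2 := congrFun h1 (Sum.inr j)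
    simpa using h2
  have hcφ : colInd D v gd.g K gd.φ := colInd_castLE D hmR hθφ hcol
  have hst : D.stab v ≤ K := gd.hstab v hcφ
  refine ⟨v, hvz, ?_⟩
  have hb := (hIDX2 p G A D K v gd.hA).2 hst
  rw [hIDX1 p G A D hG d b K gd.hA hZ n co v, gd.hindex, ← pow_mul, ← pow_add] at hb
  rw [hb]
  refine Nat.pow_le_pow_right hp1.le ?_
  have h1 : (SS D v co gd.g θ).rank = 2 * gd.a + (TT D v co θ).rank :=
    rank_SS D hLA3 v co gd.g gd.φ θ θ hmR hθφ (gd.hrowv v hcφ) (fun s2 => Iff.rfl)
  have h2 : 2 * e ≤ (SS D v co gd.g θ).rank := by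
    calc 2 * e = ((SS D v co gd.g θ).submatrix (Sum.map f id) (Sum.map f id)).rank := by
          rw [Matrix.rank_of_det_ne_zero hdv, hcard]
      _ ≤ _ := Matrix.rank_submatrix_le _ _ _
  have h3 := rank_TT_le D v b co θ
  omega

end H57.EA
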